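import Mathlib

namespace Pool.Agent.H.MP_07d80f_al

open CategoryTheory inhomogeneousCochains

variable {k G : Type} [CommRing k] [Group G]

def Ac (A : Rep.{0} k G) (n : ℕ) : Prop :=
  ∀ f : (Fin (n + 1) → G) → A, (d A (n + 1)).hom f = 0 → ∃ g, (d A n).hom g = f

theorem ac_iff (A : Rep.{0} k G) (n : ℕ) : Ac A n ↔ Limits.IsZero (groupCohomology A (n + 1)) := by
  rw [groupCohomology, ← HomologicalComplex.exactAt_iff_isZero_homology,
    HomologicalComplex.exactAt_iff' _ n (n + 1) (n + 2) (by simp) (by simp), ShortComplex.moduleCat_exact_iff]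
  simp [Ac, HomologicalComplex.sc', HomologicalComplex.shortComplexFunctor', CochainComplex.of.d]
  rfl

theorem dd (A : Rep.{0} k G) (n : ℕ) (g) : (d A (n + 1)).hom ((d A n).hom g) = 0 :=
  congrArg (fun φ => φ.hom g) (groupCohomology.inhomogeneousCochains.d_comp_d n A)

theorem nat {A B : Rep.{0} k G} (φ : A ⟶ B) (n : ℕ) (f : (Fin n → G) → A) :
    (d B n).hom (fun x => φ.hom (f x)) = fun x => φ.hom ((d A n).hom f x) := by
  funext x
  simp [d_hom_apply, Rep.hom_comm_apply]

theorem les {A B C : Rep.{0} k G} (i : A ⟶ B) (p : B ⟶ C) (hi : Function.Injective i.hom) (hp : Function.Surjective p.hom)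
    (h0 : ∀ a, p.hom (i.hom a) = 0) (h1 : ∀ b, p.hom b = 0 → ∃ a, i.hom a = b) {m : ℕ} (hC : Ac C m) (hB : Ac B (m + 1)) :
    Ac A (m + 1) := fun f h => by
  obtain ⟨g, e⟩ := hB (fun x => i.hom (f x)) (by rw [nat, h]; funext x; exact map_zero _)
  obtain ⟨c, e'⟩ := hC (fun x => p.hom (g x)) (by rw [nat, e]; funext x; exact h0 _)
  choose s hs using hp
  have e2 := nat p m fun x => s (c x)
  simp only [hs] at e2
  choose a ha using fun x => h1 (g x - (d B m).hom (fun x => s (c x)) x) (by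
    rw [map_sub, ← congrFun e2 x, e', sub_self])
  refine ⟨a, funext fun x => hi ?_⟩
  rw [← congrFun (nat i _ a) x, show (fun x => i.hom (a x)) = g - (d B m).hom (fun x => s (c x)) from funext ha, map_sub, dd, e, sub_zero]

theorem prod {ι : Type} {A : Rep.{0} k G} {B : ι → Rep.{0} k G} (π : ∀ i, A ⟶ B i) (h0 : ∀ a a', (∀ i, (π i).hom a = (π i).hom a') → a = a')
    (h1 : ∀ b : ∀ i, B i, ∃ a, ∀ i, (π i).hom a = b i) {m : ℕ} (h : ∀ i, Ac (B i) m) : Ac A m := fun f e => by
  choose g hg using fun i => h i (fun x => (π i).hom (f x)) (by rw [nat, e]; funext x; exact map_zero _)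
  choose a ha using fun x => h1 fun i => g i x
  exact ⟨a, funext fun x => h0 _ _ fun i => by rw [← congrFun (nat (π i) _ a) x, funext (ha · i), hg]⟩

theorem shap {S : Subgroup G} (B : Rep.{0} k S) (m : ℕ) : Ac (Rep.coind S.subtype B) m ↔ Ac B m := by
  rw [ac_iff, ac_iff]
  exact (groupCohomology.coindIso B _).isZero_iff

theorem res {K : Type} [Group K] (φ : K →* G) (hφ : Function.Injective φ) {m : ℕ} (h : ∀ A : Rep.{0} k G, Ac A m) (B : Rep.{0} k K) : Ac B m := by
  let e := MonoidHom.ofInjective hφ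
  have := (shap (Rep.res e.symm.toMonoidHom B) m).1 (h _)
  rw [ac_iff] at this ⊢
  exact this.of_iso (groupCohomology.mapIso e (LinearEquiv.refl k B) (fun g => by simp) _)

def FR (V : Type) [MulAction G V] (A : Rep.{0} k G) : Representation k G (V → A) where
  toFun g := { toFun φ v := A.ρ g (φ (g⁻¹ • v)), map_add' φ ψ := by ext; simp, map_smul' r φ := by ext; simp }
  map_one' := by ext; simp
  map_mul' g h := by ext; simp [mul_smul]

theorem fr (V : Type) [MulAction G V] (A : Rep.{0} k G) {m : ℕ} (h : ∀ (v : V) (B : Rep.{0} k (MulAction.stabilizer G v)), Ac B m) :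
    Ac (.of (FR V A)) m := by
  let B : V → Rep.{0} k G := fun v => Rep.coind (MulAction.stabilizer G v).subtype (Rep.res (MulAction.stabilizer G v).subtype A)
  let π : ∀ v, Rep.of (FR V A) ⟶ B v := fun v => Rep.ofHom
    { toFun φ := ⟨fun g => A.ρ g (φ (g⁻¹ • v)), fun s g => by
        have : s.1⁻¹ • v = v := (s⁻¹).2
        simp [mul_smul, this]⟩
      map_add' φ ψ := by ext; simp
      map_smul' r φ := by ext; simp
      isIntertwining' g := by ext; simp [FR, mul_smul] }
  have hπ : ∀ v φ g, ((π v).hom φ).1 g = A.ρ g (φ (g⁻¹ • v)) := fun _ _ _ => rfl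
  let r : V → MulAction.orbitRel.Quotient G V := Quotient.mk''
  have ex : ∀ v : V, ∃ g : G, g • v = (r v).out := fun v => Quotient.exact' (Quotient.out_eq' (r v))
  choose γ hγ using ex
  refine prod (fun i : MulAction.orbitRel.Quotient G V => π i.out) (fun a a' e => funext fun v => ?_) (fun b => ?_) fun i => (shap _ m).2 (h _ _)
  · have := congrArg (fun x => A.ρ (γ v)⁻¹ (x.1 (γ v))) (e (r v))
    simpa [hπ, ← hγ v] using this
  · refine ⟨fun v => A.ρ (γ v)⁻¹ ((b (r v)).1 (γ v)), fun i => Subtype.ext (funext fun g => ?_)⟩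
    have e : r (g⁻¹ • i.out) = i := (Quotient.sound' (MulAction.orbitRel_apply.2 ⟨g⁻¹, rfl⟩)).trans (Quotient.out_eq' i)
    have e2 := hγ (g⁻¹ • i.out)
    rw [hπ]
    generalize γ (g⁻¹ • i.out) = c at *
    rw [e] at e2 ⊢
    have := (b i).2 ⟨g * c⁻¹, by rw [MulAction.mem_stabilizer_iff, mul_smul, smul_eq_iff_eq_inv_smul, inv_smul_eq_iff, e2]⟩ c
    simpa using this.symm

def CD (k G : Type) [CommRing k] [Group G] (n : ℕ) : Prop := ∀ m, n ≤ m → ∀ A : Rep.{0} k G, Ac A m

theorem CD.res {K : Type} [Group K] (φ : K →* G) (hφ : Function.Injective φ) {n : ℕ} (h : CD k G n) : CD k K n :=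
  fun m l => MP_07d80f_al.res φ hφ (h m l)

theorem CD.triv [Subsingleton G] (n : ℕ) : CD k G n := fun m _ A => (ac_iff A m).2 (isZero_groupCohomology_succ_of_subsingleton A m)

theorem tree {V : Type} [MulAction G V] (v0 : V) (adj : V → V → Prop) (inv : ∀ (g : G) u v, adj u v → adj (g • u) (g • v))
    (con : ∀ P : V → Prop, P v0 → (∀ u v, adj u v → (P u ↔ P v)) → ∀ v, P v)
    (sur : ∀ (M : Type) [AddCommGroup M] (ψ : V → V → M), ∃ φ : V → M, ∀ u v, adj u v → φ v - φ u = ψ u v) {n : ℕ}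
    (st : ∀ v : V, CD k (MulAction.stabilizer G v) n) : CD k G (n + 1) := by
  classical
  intro m l A
  obtain ⟨m, rfl⟩ := Nat.exists_eq_add_of_le' (Nat.le_of_add_left_le l)
  let E := {p : V × V // adj p.1 p.2}
  let _ : MulAction G E :=
    { smul g p := ⟨g • p.1, inv g _ _ p.2⟩
      one_smul p := Subtype.ext (one_smul G p.1)
      mul_smul a b p := Subtype.ext (mul_smul a b p.1) }
  have hE : ∀ (g : G) (p : E), (g • p).1 = g • p.1 := fun _ _ => rfl
  let i : A ⟶ Rep.of (FR V A) := Rep.ofHom (ρ := A.ρ)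
    { toFun a _ := a, map_add' _ _ := rfl, map_smul' _ _ := rfl, isIntertwining' g := by ext; simp [FR] }
  let p : Rep.of (FR V A) ⟶ Rep.of (FR E A) := Rep.ofHom
    { toFun φ e := φ e.1.2 - φ e.1.1
      map_add' φ ψ := by ext; simp [add_sub_add_comm]
      map_smul' r φ := by ext; simp [smul_sub]
      isIntertwining' g := by ext; simp [FR, hE] }
  refine les i p (fun a b e => congrFun e v0) (fun ψ => ?_) (fun a => funext fun e => sub_self a) (fun φ e => ⟨φ v0, funext ?_⟩)
    (fr _ _ fun e => (st e.1.1).res ((MulAction.stabilizer G e).subtype.codRestrict _ fun g => congrArg (·.1.1) g.2)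
      (fun a b e => Subtype.ext (by simpa using congrArg Subtype.val e)) m (by omega)) (fr _ _ fun v => st v _ (by omega))
  · obtain ⟨φ, h⟩ := sur A fun u v => if h : adj u v then ψ ⟨(u, v), h⟩ else 0
    exact ⟨φ, funext fun e => (h _ _ e.2).trans (dif_pos e.2)⟩
  · exact con (fun v => φ v0 = φ v) rfl fun u v h => by rw [show φ v = φ u from sub_eq_zero.1 (congrFun e ⟨(u, v), h⟩)]

end Pool.Agent.H.MP_07d80f_al
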