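import Pool.Agent.H.MP_07d80f_al.A

namespace Pool.Agent.H.MP_07d80f_al

open CategoryTheory inhomogeneousCochains

theorem tele {n : ℕ} (a b : Fin n → ℤ) (j : Fin n) :
    ∏ i, (if i < j then a i else if i = j then a i + b i else b i) =
      (∏ i : Fin n, if (i : ℕ) < j then a i else b i) + ∏ i : Fin n, if (i : ℕ) < j + 1 then a i else b i := by
  rw [← Finset.mul_prod_erase _ _ (Finset.mem_univ j), ← Finset.mul_prod_erase _ _ (Finset.mem_univ j),
    ← Finset.mul_prod_erase _ _ (Finset.mem_univ j)]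
  have e : ∀ i ∈ Finset.univ.erase j, (if (i : ℕ) < j + 1 then a i else b i) = if (i : ℕ) < j then a i else b i := fun i h => by
    have : (i : ℕ) ≠ j := fun l => (Finset.mem_erase.1 h).1 (Fin.ext l)
    simp only [show (i : ℕ) < j + 1 ↔ (i : ℕ) < j by omega]
  have e' : ∀ i ∈ Finset.univ.erase j, (if i < j then a i else if i = j then a i + b i else b i) = if (i : ℕ) < j then a i else b i :=
    fun i h => by simp [(Finset.mem_erase.1 h).1]
  rw [Finset.prod_congr rfl e, Finset.prod_congr rfl e']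
  simp
  ring

theorem low (m : ℕ) : ¬ Ac (Rep.trivial ℤ (Multiplicative (Fin (m + 1) → ℤ)) ℤ) m := fun h => by
  obtain ⟨g, e⟩ := h (fun x => ∏ i, (x i).toAdd i) (by
    funext x
    let a : Fin (m + 1) → ℤ := fun i => (x i.castSucc).toAdd i
    let b : Fin (m + 1) → ℤ := fun i => (x i.succ).toAdd i
    let P : ℕ → ℤ := fun j => ∏ i : Fin (m + 1), if (i : ℕ) < j then a i else b i
    have e1 : ∀ j : Fin (m + 1), ∏ i, (j.castSucc.contractNth (· * ·) x i).toAdd i = P j + P (j + 1) := fun j => by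
      rw [← tele]
      refine Finset.prod_congr rfl fun i _ => ?_
      simp only [Fin.contractNth, Fin.val_castSucc, Fin.lt_def, Fin.ext_iff]
      split_ifs <;> rfl
    have e2 : ∏ i, ((Fin.last (m + 1)).contractNth (· * ·) x i).toAdd i = P (m + 1) :=
      Finset.prod_congr rfl fun i _ => by simp [Fin.contractNth, i.2, a]
    have e3 := Finset.sum_range_sub (fun j => (-1 : ℤ) ^ j * P j) (m + 1)
    rw [Finset.sum_range] at e3
    simp only [d_hom_apply, Fin.sum_univ_castSucc (n := m + 1), e1, e2]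
    have e4 : ∀ j : Fin (m + 1), (-1 : ℤ) ^ ((j.castSucc : ℕ) + 1) • (P j + P (j + 1)) = (-1 : ℤ) ^ ((j : ℕ) + 1) * P (j + 1) - (-1) ^ (j : ℕ) * P j :=
      fun j => by simp; ring
    simp only [e4, e3]
    simp [P, b]
    ring_nf
    rfl)
  let u : Equiv.Perm (Fin (m + 1)) → Fin (m + 1) → Multiplicative (Fin (m + 1) → ℤ) := fun σ i => .ofAdd (Pi.single (σ i) 1)
  have e1 : ∑ σ : Equiv.Perm (Fin (m + 1)), (σ.sign : ℤ) * ∏ i, (u σ i).toAdd i = 1 := by
    have := Matrix.det_apply' (1 : Matrix (Fin (m + 1)) (Fin (m + 1)) ℤ)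
    rw [Matrix.det_one] at this
    simpa [u, Matrix.one_apply, Pi.single_apply, eq_comm] using this.symm
  have e2 : ∀ j : Fin m, ∑ σ : Equiv.Perm (Fin (m + 1)), (σ.sign : ℤ) * g (j.castSucc.contractNth (· * ·) (u σ)) = 0 := fun j => by
    refine CharZero.eq_neg_self_iff.1 ?_
    rw [← Finset.sum_neg_distrib]
    refine Fintype.sum_equiv (Equiv.mulRight (Equiv.swap j.castSucc j.succ)) _ _ fun σ => ?_
    have : j.castSucc.contractNth (· * ·) (u (σ * Equiv.swap j.castSucc j.succ)) = j.castSucc.contractNth (· * ·) (u σ) := by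
      funext i
      simp only [Fin.contractNth, Fin.val_castSucc, u, Equiv.Perm.mul_apply]
      split_ifs with p q
      · rw [Equiv.swap_apply_of_ne_of_ne (by simp [Fin.ext_iff]; omega) (by simp [Fin.ext_iff]; omega)]
      · obtain rfl := Fin.ext q
        simp [mul_comm]
      · rw [Equiv.swap_apply_of_ne_of_ne (by simp [Fin.ext_iff]; omega) (by simp [Fin.ext_iff]; omega)]
    simp [this, Equiv.Perm.sign_swap j.castSucc_lt_succ.ne]
  have e3 : ∑ σ : Equiv.Perm (Fin (m + 1)), (σ.sign : ℤ) * g ((Fin.last m).contractNth (· * ·) (u σ)) =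
      (-1) ^ m * ∑ σ : Equiv.Perm (Fin (m + 1)), (σ.sign : ℤ) * g fun i => u σ i.succ := by
    rw [Finset.mul_sum]
    refine (Fintype.sum_equiv (Equiv.mulRight (finRotate (m + 1))) _ _ fun σ => ?_).symm
    have : (Fin.last m).contractNth (· * ·) (u (σ * finRotate (m + 1))) = fun i => u σ i.succ := by
      funext i
      simp [Fin.contractNth, u]
    simp [this]
    ring
  have e4 : ∀ σ, ∏ i, (u σ i).toAdd i = (g fun i => u σ i.succ) + (∑ j : Fin m, (-1) ^ ((j : ℕ) + 1) * g (j.castSucc.contractNth (· * ·) (u σ)) +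
      (-1) ^ (m + 1) * g ((Fin.last m).contractNth (· * ·) (u σ))) := fun σ => by
    rw [← congrFun e (u σ)]
    simp [d_hom_apply, Fin.sum_univ_castSucc]
  simp only [e4, mul_add, Finset.sum_add_distrib, Finset.mul_sum, mul_left_comm ((Equiv.Perm.sign _ : ℤˣ) : ℤ)] at e1
  rw [Finset.sum_comm] at e1
  simp only [← Finset.mul_sum, e2, e3] at e1
  rcases neg_one_pow_eq_or ℤ m with p | p <;> simp [pow_succ, p] at e1

theorem cd_ad {G : Type} [Group G] (h : ∀ n, (∀ f : Multiplicative (Fin (n + 1) → ℤ) →* G, ¬ Function.Injective f) → CD ℤ G n) :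
    ⨆ (n : ℕ) (M : Rep.{0} ℤ G) (_ : Nontrivial (groupCohomology M n)), (n : ℕ∞) =
      ⨆ (n : ℕ) (f : Multiplicative (Fin n → ℤ) →* G) (_ : Function.Injective f), (n : ℕ∞) := by
  refine le_antisymm (iSup_le fun n => iSup₂_le fun M i => ?_) (iSup_le fun n => iSup₂_le fun f i => ?_)
  · rcases n with _ | n
    · simp
    by_contra c
    exact not_subsingleton _ (ModuleCat.isZero_iff_subsingleton.1 ((ac_iff M n).1
      (h n (fun f j => c (le_iSup_of_le (n + 1) (le_iSup₂_of_le f j le_rfl))) n le_rfl M)))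
  · rcases n with _ | n
    · simp
    by_contra c
    refine low n (res f i (fun M => (ac_iff M n).2 (ModuleCat.isZero_iff_subsingleton.2 (not_nontrivial_iff_subsingleton.1 fun j => ?_))) _)
    exact c (le_iSup_of_le (n + 1) (le_iSup₂_of_le M j le_rfl))

end Pool.Agent.H.MP_07d80f_al
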