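import Pool.Agent.H.MP_f61096_al.C
import Pool.Agent.H.MP_07d80f_al.B

namespace Pool.Agent.H.MP_8a4945_al

open Pool.Agent.H.MP_07d80f_al

variable {S : Type} {R : Set (Rl S)} {G T : Type} [Group G] [MulAction G T] {X : Sys R G T} {o : T} {N : T → List (Tm S)}

namespace Sys

def Cl (X : Sys R G T) (K : Subgroup G) : Prop := ∀ μ, (X.Z true μ).Nonempty → ∀ l ∈ X.LL μ, ∀ ρ ∈ X.RR μ, l * ρ ∈ K → l ∈ K

theorem mem_RR' {g : G} {t i} (l : i < X.ln t) (h : ∀ k < i, X.q false (g • t) k = X.q false t k) : g ∈ X.RR (X.q true t i) := by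
  obtain ⟨N, hN⟩ := X.chart t
  refine ⟨?_, fun u j f => (hN.tk (ln_act _ u) (hN.val f.symm l).le).2 (hN.allR f.symm ((hN.tk (ln_act _ t) l.le).1 h))⟩
  cases i with
  | zero => exact q_zero ..
  | succ i => exact nxt (h i (by simp))

theorem Cl.inf (o : T) {K : Subgroup G} (h : X.Cl K) {μ} (v : (X.Z true μ).Nonempty) : X.Cl (K ⊓ X.RR μ) := fun ν w l p ρ q m => by
  refine ⟨h ν w l p ρ q m.1, ?_⟩
  by_cases e : l * ρ = 1
  · rw [disj' w p (by rw [eq_inv_of_mul_eq_one_left e]; exact inv_mem q)]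
    exact one_mem _
  obtain ⟨κ, a, b⟩ := start (X := X) o e
  obtain ⟨t, ⟨i, l1, e1⟩, j, l2, rfl⟩ := bridge a v m.2.1
  obtain ⟨u, ⟨i', l3, rfl⟩, j', l4, rfl⟩ := bridge a w (by rw [mul_smul, q.1, p.1])
  have c : l ∈ X.RR (X.q true u i') := mem_RR' l3 fun k f => by
    by_cases c : k < j'
    · rw [← b.2 u i' rfl k f, mul_smul, ← smul_q l, ← smul_q l, q.2 u j' rfl k c]
    · exact p.2 u j' rfl k (not_lt.1 c) (by omega)
  exact mem_RR' l2 fun k f => c.2 t i e1 k (f.trans_le (not_lt.1 fun r => a.2.2 t i e1 (m.2.2 t j rfl i r)))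

def PP (X : Sys R G T) (K : Subgroup G) (t : T) (i : ℕ) : Prop :=
  ∃ g ∈ K, g ≠ 1 ∧ ∀ k, i ≤ k → k < X.ln t → X.q false (g • t) k = X.q false t k

variable {K : Subgroup G}

theorem PP.q {t i u j} (e : X.q true t i = X.q true u j) (h : X.PP K t i) : X.PP K u j := by
  obtain ⟨N, hN⟩ := X.chart t
  obtain ⟨g, a, b, c⟩ := h
  exact ⟨g, a, b, (hN.dr (ln_act _ u)).2 (hN.allL e ((hN.dr (ln_act _ t)).1 c))⟩

theorem PP.mono {t i j} (l : i ≤ j) (h : X.PP K t i) : X.PP K t j :=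
  let ⟨g, a, b, c⟩ := h; ⟨g, a, b, fun k m => c k (l.trans m)⟩

theorem all_one {g : G} {t} (h : ∀ k < X.ln t, X.q false (g • t) k = X.q false t k) : g = 1 := by
  obtain ⟨N, hN⟩ := X.chart t
  exact X.free g t (hN.injN (by simpa using (hN.dr (i := 0) (ln_act _ t)).1 fun k _ => h k))

theorem PP.act {t i} {g : G} (m : g ∈ K) (h : X.PP K t i) : X.PP K (g • t) i :=
  let ⟨x, a, b, c⟩ := h
  ⟨g * x * g⁻¹, mul_mem (mul_mem m a) (inv_mem m), by simpa using b, fun k l l' => by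
    simpa [smul_q, mul_smul] using congrArg (g • ·) (c k l (by rwa [ln_act] at l'))⟩

def Bd (X : Sys R G T) (K : Subgroup G) (z : X.Q false) : Prop := ∃ t i, X.q false t i = z ∧ i < X.ln t ∧ ¬ X.PP K t i ∧ X.PP K t (i + 1)

theorem Bd.at {t i} (h : X.Bd K (X.q false t i)) : i < X.ln t ∧ ¬ X.PP K t i ∧ X.PP K t (i + 1) := by
  obtain ⟨u, j, e, a, b, c⟩ := h
  obtain ⟨N, hN⟩ := X.chart t
  exact ⟨hN.val e a, fun k => b (k.q (to1 e).symm), c.q (nxt e)⟩

theorem Bd.uniq {t i j} (h : X.Bd K (X.q false t i)) (k : X.Bd K (X.q false t j)) : i = j :=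
  le_antisymm (not_lt.1 fun l => h.at.2.1 (k.at.2.2.mono l)) (not_lt.1 fun l => k.at.2.1 (h.at.2.2.mono l))

theorem ex_bd (h : K ≠ ⊥) (t : T) : ∃ i, X.Bd K (X.q false t i) := by
  classical
  obtain ⟨g, a, b⟩ := (K.bot_or_exists_ne_one).resolve_left h
  have e : X.PP K t (X.ln t) := ⟨g, a, b, fun k l m => absurd m (not_lt.2 l)⟩
  have k : ∃ i, X.PP K t i := ⟨_, e⟩
  obtain ⟨i, p⟩ := Nat.exists_eq_succ_of_ne_zero (show Nat.find k ≠ 0 from fun r =>
    let ⟨g, _, b, c⟩ := r ▸ Nat.find_spec k; b (all_one fun k => c k (Nat.zero_le k)))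
  exact ⟨i, t, i, rfl, (Nat.lt_of_succ_le p.ge).trans_le (Nat.find_min' k e), Nat.find_min k (by omega), by simpa only [p] using Nat.find_spec k⟩

theorem Chart.same (hN : X.Chart o N) {t u A s B A' B' k} (e : N t = A ++ s ++ B) (e' : N u = A' ++ s ++ B') (l : k < s.length) :
    X.q false t (A.length + k) = X.q false u (A'.length + k) :=
  hN.kk0 (by rw [ln, ← hN.len, e]; simp; omega) (by simp [e, e', List.getElem?_append_right, List.getElem?_append_left l])

theorem Bd.stab (o : T) (h : X.Cl K) {z} (b : X.Bd K z) : X.Cl (K ⊓ MulAction.stabilizer G z) ∧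
    ∃ x ∈ K, ∀ g ∈ K ⊓ MulAction.stabilizer G z, Commute g x ∧ ∀ n : ℤ, g * x ^ n = 1 → n = 0 := by
  obtain ⟨t, i, rfl, l, p, x, x1, x2, x3⟩ := b
  have tf : ∀ n : ℤ, x ^ n = 1 → n = 0 := fun n e => by_contra fun c =>
    let ⟨_, a, _⟩ := start (X := X) o x2; (a.zpow c).ne e
  have f : ∀ g ∈ K ⊓ MulAction.stabilizer G (X.q false t i), ∀ k < i + 1, X.q false (g • t) k = X.q false t k := fun g m k c => by
    obtain ⟨a, a1, ρ, a2, rfl⟩ := split (μ := X.q true t i) (g := g) ⟨t, i, l, rfl⟩ (to1 m.2)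
    obtain rfl : a = 1 := by_contra fun r => p ⟨a, h _ ⟨t, i, l, rfl⟩ a a1 ρ a2 m.1, r, a1.2 t i rfl⟩
    rcases Nat.lt_succ_iff_lt_or_eq.1 c with c | rfl
    exacts [by simpa using a2.2 t i rfl k c, m.2]
  rcases Nat.lt_or_eq_of_le (Nat.succ_le_of_lt l) with l' | l'
  · have v : (X.Z true (X.q true t (i + 1))).Nonempty := ⟨t, _, l', rfl⟩
    have e : K ⊓ MulAction.stabilizer G (X.q false t i) = K ⊓ X.RR (X.q true t (i + 1)) :=
      Subgroup.ext fun g => ⟨fun m => ⟨m.1, mem_RR l' (f g m)⟩, fun m => ⟨m.1, m.2.2 t _ rfl i (by simp)⟩⟩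
    rw [e]
    refine ⟨h.inf o v, x, x1, fun g m => ⟨lr_comm v (mem_LL l' x3) m.2, fun n r => tf n (disj' v (zpow_mem (mem_LL l' x3) n) ?_)⟩⟩
    rw [eq_inv_of_mul_eq_one_right r]
    exact inv_mem m.2
  · have e : ∀ g ∈ K ⊓ MulAction.stabilizer G (X.q false t i), g = 1 := fun g m => all_one fun k c => f g m k (by omega)
    refine ⟨fun μ v a p ρ q m => ?_, x, x1, fun g m => ?_⟩
    · rw [disj' v p (by rw [eq_inv_of_mul_eq_one_left (e _ m)]; exact inv_mem q)]
      exact one_mem _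
    · obtain rfl := e g m
      exact ⟨.one_left x, fun n r => tf n (by simpa using r)⟩

theorem step (o : T) (h : K ≠ ⊥) {n} (st : ∀ z, X.Bd K z → CD ℤ ↥(K ⊓ MulAction.stabilizer G z) n) : CD ℤ K (n + 1) := by
  classical
  let V := {z // X.Bd K z}
  let _ : MulAction K V :=
    { smul g z := ⟨g.1 • z.1, by
        obtain ⟨_, t, i, rfl, a, b, c⟩ := z
        exact ⟨g.1 • t, i, rfl, by rwa [ln_act], fun k => b (by simpa using k.act (inv_mem g.2)), c.act g.2⟩⟩
      one_smul z := Subtype.ext (one_smul G z.1)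
      mul_smul a b z := Subtype.ext (mul_smul a.1 b.1 z.1) }
  choose ix hx using ex_bd (X := X) h
  let y : T → V := fun t => ⟨_, hx t⟩
  have y1 : ∀ t i (v : V), X.q false t i = v.1 → y t = v := fun t i v e => Subtype.ext ((congrArg _ ((hx t).uniq (e ▸ v.2))).trans e)
  have y2 : ∀ v : V, ∃ t, y t = v := fun v => let ⟨t, i, e, _⟩ := v.2; ⟨t, y1 t i v e⟩
  have y3 : ∀ (g : K) t, y (g.1 • t) = g • y t := fun g t => y1 _ (ix t) _ rfl
  have y4 : ∀ {t t' a r d b}, X.St t t' a r d b → y t ≠ y t' → ∃ k < (src r d).length, X.q false t (a.length + k) = (y t).1 :=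
    fun {t t' a r d b} s e => by
      by_cases c : ix t < a.length
      · exact (e (y1 t' _ _ (qL s c).symm).symm).elim
      by_cases c' : a.length + (src r d).length ≤ ix t
      · obtain ⟨k, c'⟩ := Nat.exists_eq_add_of_le c'
        exact (e (y1 t' _ _ ((qR s k).symm.trans (c' ▸ rfl))).symm).elim
      · exact ⟨ix t - a.length, by omega, by rw [Nat.add_sub_cancel' (not_lt.1 c)]⟩
  obtain ⟨N, hN⟩ := X.chart o
  have y5 : ∀ {t t' a c b A B u u' a' b' A' B'}, X.Up N t t' a c b A B → X.Up N u u' a' c b' A' B' → y t ≠ y t' → y u = y t ∧ y u' = y t' :=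
    fun p q e => by
      obtain ⟨k, l, f⟩ := y4 p.st e
      obtain ⟨k', l', f'⟩ := y4 (X.sym p.st) e.symm
      exact ⟨y1 _ _ _ ((hN.same q.e1 p.e1 (p.l2 ▸ l)).trans (p.l1 ▸ f)),
        y1 _ _ _ ((hN.same q.e2 p.e2 ((outs_len ..).symm ▸ l')).trans (p.l1 ▸ f'))⟩
  refine tree (y o) (fun u v => u ≠ v ∧ ∃ t t' a r b, X.St t t' a r true b ∧ y t = u ∧ y t' = v) ?_ (fun P p q v => ?_) (fun M _ ψ => ?_) fun v => ?_
  · rintro g _ _ ⟨e, t, t', a, r, b, s, rfl, rfl⟩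
    exact ⟨by simpa using e, _, _, a, r, b, X.sact g s, y3 .., y3 ..⟩
  · obtain ⟨t, rfl⟩ := y2 v
    refine X.con o (fun t => P (y t)) p (fun t t' a r d b s i => ?_) t
    by_cases e : y t = y t'
    · exact e ▸ i
    cases d
    exacts [(q _ _ ⟨Ne.symm e, _, _, _, _, _, X.sym s, rfl, rfl⟩).2 i, (q _ _ ⟨e, _, _, _, _, _, s, rfl, rfl⟩).1 i]
  · obtain ⟨w, hw⟩ : ∃ w : Ce S → M, ∀ {t t' a c b A B}, X.Up N t t' a c b A B →
        w c = if y t = y t' then 0 else cond c.d (ψ (y t) (y t')) (-ψ (y t') (y t)) := by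
      have : ∀ c : Ce S, ∃ m : M, ∀ {t t' a b A B}, X.Up N t t' a c b A B →
          m = if y t = y t' then 0 else cond c.d (ψ (y t) (y t')) (-ψ (y t') (y t)) := fun c => by
        by_cases e : ∃ t t' a b A B, X.Up N t t' a c b A B ∧ y t ≠ y t'
        · obtain ⟨t, t', a, b, A, B, p, e⟩ := e
          exact ⟨_, fun q => by rw [(y5 p q e).1, (y5 p q e).2]⟩
        · exact ⟨0, fun q => (if_pos (by_contra fun r => e ⟨_, _, _, _, _, _, q, r⟩)).symm⟩
      choose w hw using this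
      exact ⟨w, fun p => hw _ p⟩
    let Φ : T → M := fun t => ∑ c ∈ (hN.inv t).fin.toFinset, w c
    have f1 : ∀ {t t' a c b A B}, X.Up N t t' a c b A B → Φ t' = w c + Φ t := fun {t t' a c b A B} p => by
      rw [← Finset.sum_insert (by simpa using (hN.up_c p).1)]
      exact Finset.sum_congr (by ext; simp [(hN.up_c p).2]) fun _ _ => rfl
    have f2 : ∀ t u, y t = y u → Φ t = Φ u := hN.geo _ (fun _ _ => rfl) (fun _ _ p e => (p e.symm).symm) fun t0 t a c b A B u p m ih e => by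
      obtain ⟨i, -, f⟩ := hN.conv (z := (y t).1) p m ⟨_, (hx t).at.1, rfl⟩ ⟨_, (hx u).at.1, congrArg Subtype.val e.symm⟩
      rw [f1 p, hw p, if_pos (y1 _ _ _ f), zero_add, ih ((y1 _ _ _ f).trans e)]
    choose τ hτ using y2
    refine ⟨fun v => Φ (τ v), ?_⟩
    rintro _ _ ⟨e, t, t', a, r, b, s, rfl, rfl⟩
    simp only [f2 _ _ (hτ _)]
    rcases hN.dich s with ⟨L, A, B, p⟩ | ⟨L, A, B, p⟩
    · simp [f1 p, hw p, e]
    · rw [f1 p, hw p]
      simp [e.symm]
  · exact (st v.1 v.2).res ((K.subtype.comp (MulAction.stabilizer K v).subtype).codRestrict (K ⊓ MulAction.stabilizer G v.1)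
      fun g => ⟨g.1.2, congrArg Subtype.val g.2⟩)
      fun a b e => Subtype.ext (Subtype.ext (by simpa using congrArg Subtype.val e))

theorem upper (X : Sys R G T) (o : T) (n : ℕ) : ∀ K : Subgroup G, X.Cl K →
    (∀ f : Multiplicative (Fin n → ℤ) →* G, Function.Injective f → ¬ ∀ a, f a ∈ K) → ∃ m, n = m + 1 ∧ CD ℤ K m := by
  induction n with
  | zero => exact fun K _ h => (h 1 (Function.injective_of_subsingleton _) fun _ => one_mem K).elim
  | succ n ih =>
    intro K c h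
    refine ⟨n, rfl, ?_⟩
    by_cases e : K = ⊥
    · subst e
      exact .triv n
    have k : ∀ z, X.Bd K z → ∃ m, n = m + 1 ∧ CD ℤ ↥(K ⊓ MulAction.stabilizer G z) m := fun z b => by
      obtain ⟨c', x, x1, x2⟩ := b.stab o c
      refine ih _ c' fun f i j => h (.mk' (fun a => f (.ofAdd (Fin.tail a.toAdd)) * x ^ a.toAdd 0) fun a b => ?_)
        ((injective_iff_map_eq_one _).2 fun a r => ?_) fun a => mul_mem (j _).1 (zpow_mem x1 _)
      · rw [((x2 _ (j _)).1.zpow_right _).symm.mul_mul_mul_comm, ← map_mul, ← zpow_add]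
        rfl
      · have p := (x2 _ (j _)).2 _ r
        have q : f _ * x ^ a.toAdd 0 = 1 := r
        rw [p, zpow_zero, mul_one, map_eq_one_iff f i] at q
        exact funext (Fin.cases p fun l => congrFun q l)
    obtain ⟨i, b⟩ := ex_bd (X := X) e o
    obtain ⟨m, rfl, -⟩ := k _ b
    exact step o e fun z b => let ⟨_, p, q⟩ := k z b; Nat.succ_injective p ▸ q

theorem cd_le (X : Sys R G T) (o : T) (n : ℕ) (h : ∀ f : Multiplicative (Fin (n + 1) → ℤ) →* G, ¬ Function.Injective f) : CD ℤ G n := by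
  obtain ⟨m, e, p⟩ := X.upper o (n + 1) ⊤ (fun _ _ _ _ _ _ _ => trivial) fun f i _ => h f i
  obtain rfl := Nat.succ_injective e
  exact p.res ((MonoidHom.id G).codRestrict (⊤ : Subgroup G) fun _ => Subgroup.mem_top _) fun _ _ e => congrArg Subtype.val e

end Sys

end Pool.Agent.H.MP_8a4945_al
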